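import Pool.Agent.REV.StmtsX
import Pool.Agent.BPH.Zot
import Pool.Agent.BPH.Zod
import Pool.Agent.BPH.Geo
import Pool.Agent.Helper46_REV.CYS

set_option autoImplicit false

/-!
# Squad REV, row GEO0: one step for the body, `i = n - 1`
-/

open MeasureTheory Module Set Filter
open scoped RealInnerProductSpace Pointwise Topology ENNReal

namespace Pool.Agent.REV.H55

open Pool.Agent.Helper55_PB Pool.Agent.Helper28_PB Pool.Agent.BPH Pool.Agent.REV

/-- in a one-dimensional space segments are balls -/
theorem seg_ball {E : Type} [NormedAddCommGroup E] [InnerProductSpace ℝ E] [FiniteDimensional ℝ E]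
    (h1 : finrank ℝ E = 1) (b : E) : segment ℝ (-b) b = Metric.closedBall (0 : E) ‖b‖ := by
  by_cases hb : b = 0
  · subst hb
    simp
  · have hb0 : 0 < ‖b‖ := norm_pos_iff.2 hb
    apply Subset.antisymm
    · refine (convex_closedBall (0 : E) ‖b‖).segment_subset ?_ ?_
      · simp
      · simp
    · intro x hx
      obtain ⟨c, rfl⟩ := (finrank_eq_one_iff_of_nonzero' b hb).1 h1 x
      rw [mem_closedBall_zero_iff, norm_smul, Real.norm_eq_abs] at hx
      have h2 : |c| ≤ 1 := by
        by_contra h
        push Not at h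
        nlinarith
      obtain ⟨h3, h4⟩ := abs_le.1 h2
      refine ⟨(1 - c) / 2, (1 + c) / 2, by linarith, by linarith, by ring, ?_⟩
      rw [smul_neg, ← sub_eq_neg_add, ← sub_smul]
      congr 1
      ring

theorem sum_ball {E : Type} [NormedAddCommGroup E] [InnerProductSpace ℝ E] [FiniteDimensional ℝ E]
    {ι : Type} (s : Finset ι) (r : ι → ℝ) (hr : ∀ l, 0 ≤ r l) :
    ∑ l ∈ s, Metric.closedBall (0 : E) (r l) = Metric.closedBall (0 : E) (∑ l ∈ s, r l) := by
  classical
  induction s using Finset.induction_on with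
  | empty => simp; rfl
  | insert a s ha ih =>
    rw [Finset.sum_insert ha, Finset.sum_insert ha, ih,
      closedBall_add_closedBall (hr a) (Finset.sum_nonneg fun l _ => hr l), add_zero]

/-- zonotopes in dimension one -/
theorem zot1 (gwb : GWB) {E : Type} [NormedAddCommGroup E] [InnerProductSpace ℝ E]
    [FiniteDimensional ℝ E] [MeasurableSpace E] [BorelSpace E] {ι : Type} [Fintype ι]
    (b : ι → E) (h1 : finrank ℝ E = 1) :
    sc (∑ l, segment ℝ (-(b l)) (b l)) 0 =
      ballVol 0 * (2 ^ (0 + 1) / ((0 + 1).factorial : ℝ)) *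
        ∑ v : Fin (0 + 1) → ι, gw (fun l => b (v l)) := by
  classical
  have hlim : LimStmt := lim_of vd_sum
  have e1 : (∑ l, segment ℝ (-(b l)) (b l)) = Metric.closedBall (0 : E) (∑ l, ‖b l‖) := by
    rw [Finset.sum_congr rfl fun l _ => seg_ball h1 (b l)]
    exact sum_ball Finset.univ (fun l => ‖b l‖) fun l => norm_nonneg _
  have hcc : CC (Metric.closedBall (0 : E) (∑ l, ‖b l‖)) :=
    ⟨isCompact_closedBall _ _, convex_closedBall _ _,
      ⟨0, Metric.mem_closedBall_self (Finset.sum_nonneg fun l _ => norm_nonneg _)⟩⟩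
  have h2 := sc_spec hlim (by omega) hcc 0 le_rfl
  have e2 : Metric.closedBall (0 : E) (∑ l, ‖b l‖) + Metric.closedBall (0 : E) 0 =
      Metric.closedBall (0 : E) (∑ l, ‖b l‖) := by
    rw [closedBall_add_closedBall (Finset.sum_nonneg fun l _ => norm_nonneg _) le_rfl, add_zero,
      add_zero]
  rw [e2, volume_ball_eq _ (Finset.sum_nonneg fun l _ => norm_nonneg _), h1,
    Finset.sum_range_succ'] at h2
  rw [e1]
  have e3 : ∀ v : Fin 1 → ι, gw (fun l => b (v l)) = ‖b (v 0)‖ := by
    intro v
    unfold gw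
    rw [Matrix.det_fin_one]
    simp only [Matrix.gram_apply, real_inner_self_eq_norm_sq]
    exact Real.sqrt_sq (norm_nonneg _)
  have e4 : ∑ v : Fin (0 + 1) → ι, gw (fun l => b (v l)) = ∑ l, ‖b l‖ := by
    refine Fintype.sum_equiv (Equiv.funUnique (Fin 1) ι) _ _ fun v => ?_
    exact e3 v
  rw [e4]
  have h3 : sc (Metric.closedBall (0 : E) (∑ l, ‖b l‖)) 0 = ballVol 1 * (∑ l, ‖b l‖) ^ 1 := by
    rw [h2]
    simp
  rw [h3, H46.ballVol_zero', H46.ballVol_one']
  norm_num

/-- zonotopes, volume -/
theorem zot0 (gwb : GWB) {E : Type} [NormedAddCommGroup E] [InnerProductSpace ℝ E]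
    [FiniteDimensional ℝ E] [MeasurableSpace E] [BorelSpace E] {ι : Type} [Fintype ι]
    (b : ι → E) (i : ℕ) (hi : 1 ≤ i) (hij : i = finrank ℝ E) :
    sc (∑ l, segment ℝ (-(b l)) (b l)) 0 =
      ballVol 0 * (2 ^ i / (i.factorial : ℝ)) * ∑ v : Fin i → ι, gw (fun l => b (v l)) := by
  classical
  have hlim : LimStmt := lim_of vd_sum
  induction i generalizing E with
  | zero => omega
  | succ i ih =>
    by_cases hi0 : i = 0
    · subst hi0
      exact zot1 gwb b hij.symm
    have hn : 1 < finrank ℝ E := by omega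
    have key : ∀ (s : Finset ι) (b : ι → E), (∀ l, l ∉ s → b l = 0) →
        sc (∑ l, segment ℝ (-(b l)) (b l)) 0 =
          ballVol 0 * (2 ^ (i + 1) / ((i + 1).factorial : ℝ)) *
            ∑ v : Fin (i + 1) → ι, gw (fun l => b (v l)) := by
      intro s
      induction s using Finset.induction_on with
      | empty =>
        intro b hb
        have h0 : ∀ l, b l = 0 := fun l => hb l (Finset.notMem_empty l)
        have h1 : (∑ l, segment ℝ (-(b l)) (b l)) = (0 : Set E) := by
          refine Finset.sum_eq_zero fun l _ => ?_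
          rw [h0 l, neg_zero, segment_same]
          rfl
        rw [h1, zot_point (by omega), Finset.sum_eq_zero, mul_zero]
        intro v _
        exact zot_zero gwb 0 (h0 _)
      | insert a s has ihs =>
        intro b hb
        set b' := Function.update b a 0 with hb'
        have ha : b' a = 0 := by rw [hb']; simp
        have hne : ∀ x, x ≠ a → b' x = b x := fun x hx => by rw [hb']; simp [hx]
        have hb's : ∀ l, l ∉ s → b' l = 0 := by
          intro l hl
          by_cases h : l = a
          · rw [h, ha]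
          · rw [hne l h]
            exact hb l (by simp [h, hl])
        have h1 := ihs b' hb's
        set M := ∑ l, segment ℝ (-(b' l)) (b' l) with hM
        have hsum : (∑ l, segment ℝ (-(b l)) (b l)) = M + segment ℝ (-(b a)) (b a) := by
          rw [hM, ← Finset.add_sum_erase _ _ (Finset.mem_univ a),
            ← Finset.add_sum_erase _ (fun l => segment ℝ (-(b' l)) (b' l)) (Finset.mem_univ a)]
          have e1 : segment ℝ (-(b' a)) (b' a) = 0 := by
            rw [ha, neg_zero, segment_same]
            rfl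
          simp only [e1, zero_add]
          rw [add_comm]
          congr 1
          refine Finset.sum_congr rfl fun l hl => ?_
          rw [hne l (Finset.ne_of_mem_erase hl)]
        by_cases h0 : b a = 0
        · have e1 : b' = b := by
            rw [hb', ← h0, Function.update_eq_self]
          rw [hsum, h0, neg_zero, segment_same]
          have e2 : M + {(0 : E)} = M := add_zero M
          rw [e2, h1, e1]
        · set c := ‖b a‖ with hc
          have hc0 : 0 < c := norm_pos_iff.2 h0
          set e : E := c⁻¹ • b a with he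
          have he1 : ‖e‖ = 1 := by
            rw [he, norm_smul, norm_inv, Real.norm_of_nonneg hc0.le, ← hc]
            exact inv_mul_cancel₀ hc0.ne'
          have hce : c • e = b a := by
            rw [he, smul_smul, mul_inv_cancel₀ hc0.ne', one_smul]
          have hMc : CC M := zot_cc _ b'
          have h2 := sc_add_segment_symm hlim hn hMc he1 hc0.le (j := 0) (by omega)
          rw [hce] at h2
          rw [hsum, h2, h1, zot_count gwb b a, ← hb']
          have hr := Helper28_PB.finrank_perp he1
          have h3 := ih (E := ((ℝ ∙ e)ᗮ : Submodule ℝ E))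
            (fun l => (ℝ ∙ e)ᗮ.orthogonalProjectionOnto (b' l)) (by omega) (by omega)
          rw [hM, zot_image, h3]
          have h4 : ∀ w : Fin i → ι, c * gw (fun l => (ℝ ∙ e)ᗮ.orthogonalProjectionOnto (b' (w l)))
              = gw (cns (b a) (fun l => b' (w l))) := by
            intro w
            rw [gwb.proj e he1 (fun l => b' (w l))]
            have e1 := gwb.smul (cns e (fun l => b' (w l))) (cns c (fun _ => 1))
            have e2 : (fun l => (cns c (fun _ => 1) : Fin (i + 1) → ℝ) l •
                cns e (fun l => b' (w l)) l) = cns (b a) (fun l => b' (w l)) := by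
              funext l
              unfold cns
              refine Fin.cases ?_ (fun l => ?_) l
              · simp [hce]
              · simp
            rw [e2] at e1
            rw [e1]
            congr 1
            unfold cns
            rw [Fin.prod_univ_succ]
            simp [abs_of_pos hc0]
          have h5 : c * ∑ w : Fin i → ι,
              gw (fun l => (ℝ ∙ e)ᗮ.orthogonalProjectionOnto (b' (w l))) =
              ∑ w : Fin i → ι, gw (cns (b a) (fun l => b' (w l))) := by
            rw [Finset.mul_sum]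
            exact Finset.sum_congr rfl fun w _ => h4 w
          rw [← h5, Nat.factorial_succ]
          have h6 : ((i.factorial : ℕ) : ℝ) ≠ 0 := Nat.cast_ne_zero.2 (Nat.factorial_ne_zero i)
          have h7 : ((i : ℝ) + 1) ≠ 0 := by positivity
          push_cast
          field_simp
          ring
    exact key Finset.univ b (fun l hl => absurd (Finset.mem_univ l) hl)


/-- the projection body of a zonoid -/
theorem zod0 (sp : SPH) (gwb : GWB) {E : Type} [NormedAddCommGroup E] [InnerProductSpace ℝ E]
    [FiniteDimensional ℝ E] [MeasurableSpace E] [BorelSpace E] (i : ℕ) (hi : 1 ≤ i)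
    (hn : 0 + i + 1 = finrank ℝ E) (f : E → ℝ) (hf : Dens f) (c : ℝ) (hc : 0 < c)
    (hcf : ∀ u : E, ‖u‖ = 1 → c ≤ hz f u) (M : Set E) (hM : CC M)
    (hMf : ∀ u : E, supportFn M u = hz f u) (w : E) (hw : ‖w‖ = 1) :
    sc ((ℝ ∙ w)ᗮ.orthogonalProjectionOnto '' M) 0 =
      ballVol 0 * (2 ^ i / (i.factorial : ℝ)) * YY i f w := by
  have hnt : Nontrivial E := Module.nontrivial_of_finrank_pos (R := ℝ) (by omega)
  have hlim : LimStmt := lim_of facts.sum
  have := sp.prob (E := E)
  have hVd : finrank ℝ ((ℝ ∙ w)ᗮ : Submodule ℝ E) + 1 = finrank ℝ E := finrank_perp hw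
  have hproj : ∀ v : Fin i → E,
      gw (fun l => (ℝ ∙ w)ᗮ.orthogonalProjectionOnto (v l)) = gw (cns w v) := gwb.proj w hw
  set V : Submodule ℝ E := (ℝ ∙ w)ᗮ with hV
  set P : E →L[ℝ] V := V.orthogonalProjectionOnto with hP
  have hV0 : 0 < finrank ℝ V := by omega
  -- simple functions
  have hpos : ∀ N : ℕ, (0 : ℝ) < 1 / ((N : ℝ) + 1) := fun N => by positivity
  choose r hr using fun N : ℕ => exists_simple (E := E) 1 (hpos N)
  set b : ∀ N : ℕ, (r N).range → E := fun N p => wr (r N) f p • (p : E) with hb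
  set Z : ℕ → Set E := fun N => ∑ p : (r N).range, segment ℝ (-(b N p)) (b N p) with hZ
  have hZc : ∀ N, CC (Z N) := fun N => (zt_props Finset.univ (b N)).1
  have hs1 : ∀ N u, supportFn (Z N) u = ∫ x, |⟪u, r N x⟫| * f x ∂sph E := by
    intro N u
    rw [(zt_props Finset.univ (b N)).2 u,
      ← simple_int1 (r N) (hf.integrable sp) (fun y => |⟪u, y⟫|)]
    refine Finset.sum_congr rfl ?_
    intro p _
    simp only [hb]
    rw [real_inner_smul_left, abs_mul, abs_of_nonneg (wr_nonneg _ hf.nonneg _), mul_comm,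
      real_inner_comm]
  have hs2 : ∀ N u, |supportFn (Z N) u - supportFn M u| ≤
      1 / ((N : ℝ) + 1) / c * supportFn M u := by
    intro N u
    rw [hs1, hMf]
    refine (hz_simple sp hf (hpos N) (hr N) u).trans ?_
    have h1 := le_hz hcf u
    have h2 : ‖u‖ ≤ hz f u / c := by
      rw [le_div_iff₀ hc, mul_comm]
      exact h1
    calc 1 / ((N : ℝ) + 1) * ‖u‖ ≤ 1 / ((N : ℝ) + 1) * (hz f u / c) :=
          mul_le_mul_of_nonneg_left h2 (hpos N).le
      _ = 1 / ((N : ℝ) + 1) / c * hz f u := by ring
  set ε : ℕ → ℝ := fun N => 1 / ((N : ℝ) + 1) / c with hε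
  have hε0 : ∀ N, 0 < ε N := fun N => div_pos (hpos N) hc
  have hεt : Tendsto ε atTop (𝓝 0) := by
    have := (tendsto_one_div_add_atTop_nhds_zero_nat (𝕜 := ℝ)).div_const c
    rw [zero_div] at this
    exact this
  have hMP : CC (P '' M) := hM.image P
  set S := sc (P '' M) 0 with hS
  have hscal : ∀ t : ℝ, 0 < t → sc (P '' (t • M)) 0 = t ^ i * S := by
    intro t ht
    rw [Set.image_smul_comm P t M (fun x => map_smul P t x), sc_smul hlim hV0 hMP ht (by omega)]
    congr 2
    omega
  have hsupp : ∀ t : ℝ, 0 < t → ∀ u, supportFn (t • M) u = t * supportFn M u := by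
    intro t ht u
    exact supportFn_smul_set hM.cpt hM.ne ht.le u
  have hup : ∀ N, sc (P '' (Z N)) 0 ≤ (1 + ε N) ^ i * S := by
    intro N
    have ht : 0 < 1 + ε N := by linarith [hε0 N]
    rw [← hscal _ ht]
    refine sc_mono hlim facts.mono hV0 ((hZc N).image P) ((CC_smul hM _).image P) (by omega) ?_
    refine Set.image_mono (subset_of_supp (hZc N).cpt (CC_smul hM _) (fun u => ?_))
    rw [hsupp _ ht]
    have h := (abs_le.mp (hs2 N u)).2
    linarith
  have hlo : ∀ N, ε N < 1 → (1 - ε N) ^ i * S ≤ sc (P '' (Z N)) 0 := by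
    intro N hN
    have ht : 0 < 1 - ε N := by linarith
    rw [← hscal _ ht]
    refine sc_mono hlim facts.mono hV0 ((CC_smul hM _).image P) ((hZc N).image P) (by omega) ?_
    refine Set.image_mono (subset_of_supp (CC_smul hM _).cpt (hZc N) (fun u => ?_))
    rw [hsupp _ ht]
    have h := (abs_le.mp (hs2 N u)).1
    linarith
  set I : ℕ → ℝ := fun N => ∫ v, gw (cns w (fun l => r N (v l))) * ∏ l, f (v l) ∂sphP E i with hI
  have hval : ∀ N, sc (P '' (Z N)) 0 = ballVol 0 * (2 ^ i / (i.factorial : ℝ)) * I N := by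
    intro N
    rw [hZ]
    simp only
    rw [image_zt P Finset.univ (b N), zot0 gwb (fun p => P (b N p)) i hi (by omega)]
    congr 1
    simp only [hI]
    rw [← simple_int sp (r N) (hf.integrable sp) (fun v => gw (cns w v))]
    refine Finset.sum_congr rfl ?_
    intro v _
    rw [← hproj]
    simp only [hb, map_smul]
    rw [gwb.smul (fun l => P (v l : E)) (fun l => wr (r N) f (v l)), abs_of_nonneg
      (Finset.prod_nonneg (fun l _ => wr_nonneg _ hf.nonneg _)), mul_comm]
  have hG : Continuous (fun q : E × (Fin i → E) => gw (cns q.1 q.2)) :=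
    gwb.cont.comp continuous_cns
  have hIt : Tendsto I atTop (𝓝 (YY i f w)) :=
    tendsto_simple sp hG hf hr (a := fun _ => w) (a₀ := w) tendsto_const_nhds
      (fun _ => by rw [hw]; norm_num)
  have hleft : Tendsto (fun N => sc (P '' (Z N)) 0) atTop
      (𝓝 (ballVol 0 * (2 ^ i / (i.factorial : ℝ)) * YY i f w)) := by
    simp_rw [hval]
    exact hIt.const_mul _
  have h1 : Tendsto (fun N => (1 + ε N) ^ i * S) atTop (𝓝 S) := by
    have : Tendsto (fun N => (1 + ε N) ^ i * S) atTop (𝓝 ((1 + 0) ^ i * S)) :=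
      ((hεt.const_add 1).pow i).mul_const S
    simpa using this
  have h2 : Tendsto (fun N => (1 - ε N) ^ i * S) atTop (𝓝 S) := by
    have : Tendsto (fun N => (1 - ε N) ^ i * S) atTop (𝓝 ((1 - 0) ^ i * S)) :=
      ((hεt.const_sub 1).pow i).mul_const S
    simpa using this
  refine le_antisymm ?_ ?_
  · refine le_of_tendsto_of_tendsto h2 hleft ?_
    filter_upwards [hεt.eventually (gt_mem_nhds one_pos)] with N hN
    exact hlo N hN
  · exact le_of_tendsto_of_tendsto' hleft h1 hup


/-- GEO0 -/
theorem geo0 (gwa : GWAStmt) (s : SPH) (spi : SPIStmt) (bkk : BKKStmt) (zfu : ZFU) (gwb : GWB)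
    (zom : ZOMStmt) : Geo0Stmt := by
  intro E _ _ _ _ _ i hi him K c hK f f' hf hf' hstep δ t hδ ht hKf
  haveI hnt : Nontrivial E := Module.nontrivial_of_finrank_pos (R := ℝ) (by omega)
  have hlim : LimStmt := lim_of vd_sum
  obtain ⟨b, hb, hbY⟩ := geo_YY (E := E) gwa s spi bkk (i := i) (by omega)
  obtain ⟨M, hM, hMf⟩ := zom (E := E) f hf
  obtain ⟨ρ, hρ, hρb⟩ := exists_ball_zero hK.zero_mem
  have hc₀ : 0 < Real.exp (-δ) * (ρ / t) := by positivity
  have hlow : ∀ u : E, ‖u‖ = 1 → Real.exp (-δ) * (ρ / t) ≤ hz f u := by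
    intro u hu
    have h1 := le_supportFn_of_ball hK.cc.cpt hρ.le hρb u
    have h2 := (hKf u).2
    rw [hu, mul_one] at h1
    have h3 : ρ ≤ Real.exp δ * (t * hz f u) := h1.trans h2
    have h4 : Real.exp (-δ) * (ρ / t) ≤ Real.exp (-δ) * ((Real.exp δ * (t * hz f u)) / t) := by
      gcongr
    refine h4.trans (le_of_eq ?_)
    have h5 : Real.exp (-δ) * Real.exp δ = 1 := by rw [← Real.exp_add]; simp
    calc Real.exp (-δ) * ((Real.exp δ * (t * hz f u)) / t)
        = (Real.exp (-δ) * Real.exp δ) * (hz f u * (t / t)) := by ring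
      _ = hz f u := by rw [h5, div_self ht.ne']; ring
  set C : ℝ := ballVol 0 * (2 ^ i / (i.factorial : ℝ)) with hC
  have hC0 : 0 < C := by
    have h1 := ballVol_pos 0
    have h2 : (0 : ℝ) < (i.factorial : ℝ) := by exact_mod_cast Nat.factorial_pos i
    positivity
  have hZ : 0 < ZZ i f := zfu.pos i f (by omega) hf
  have hcp := hK.pos
  set t' : ℝ := C * (ZZ i f / b) * t ^ i / c with ht'
  have ht'0 : 0 < t' := by positivity
  have key : ∀ a : ℝ, 0 < a → ∀ w : E, ‖w‖ = 1 →
      sc ((ℝ ∙ w)ᗮ.orthogonalProjectionOnto '' (a • M)) 0 = a ^ i * (C * (ZZ i f / b) * hz f' w) ∧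
      CC ((ℝ ∙ w)ᗮ.orthogonalProjectionOnto '' (a • M)) := by
    intro a ha w hw
    have hrank := Helper28_PB.finrank_perp hw
    have hPM : CC ((ℝ ∙ w)ᗮ.orthogonalProjectionOnto '' M) := hM.image _
    have h1 : (ℝ ∙ w)ᗮ.orthogonalProjectionOnto '' (a • M) =
        a • ((ℝ ∙ w)ᗮ.orthogonalProjectionOnto '' M) :=
      Set.image_smul_comm _ a M (fun x => map_smul _ a x)
    have h2 := sc_smul hlim (by omega) hPM ha (j := 0) (by omega)
    have h3 := zod0 s gwb i hi (by omega) f hf _ hc₀ hlow M hM hMf w hw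
    have h4 := hbY f f' hstep w hw
    have h5 : finrank ℝ ((ℝ ∙ w)ᗮ : Submodule ℝ E) - 0 = i := by omega
    refine ⟨?_, (CC_smul hM a).image _⟩
    rw [h1, h2, h3, h5]
    have h6 : YY i f w = ZZ i f / b * hz f' w := by
      field_simp
      linarith
    rw [h6, hC]
    ring
  have hunit : ∀ w : E, ‖w‖ = 1 → Real.exp (-(i * δ)) * (t' * hz f' w) ≤ supportFn K w ∧
      supportFn K w ≤ Real.exp (i * δ) * (t' * hz f' w) := by
    intro w hw
    have hrank := Helper28_PB.finrank_perp hw
    have heq := hK.eq w hw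
    have hPK : CC ((ℝ ∙ w)ᗮ.orthogonalProjectionOnto '' K) := hK.cc.image _
    have hsup : ∀ a : ℝ, 0 < a → ∀ u : E, supportFn (a • M) u = a * hz f u := by
      intro a ha u
      have h1 : supportFn ((fun y => a • y) '' M) u = a * supportFn M u :=
        supportFn_smul_set hM.cpt hM.ne ha.le u
      rw [hMf] at h1
      exact h1
    constructor
    · have ha : 0 < Real.exp (-δ) * t := by positivity
      have hsub : (Real.exp (-δ) * t) • M ⊆ K := by
        refine geo_subset (CC_smul hM _) hK.cc (fun u => ?_)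
        rw [hsup _ ha]
        have := (hKf u).1
        linarith
      have h1 := sc_mono hlim vd_mono (by omega) (key _ ha w hw).2 hPK (j := 0) (by omega)
        (Set.image_mono hsub)
      rw [(key _ ha w hw).1, ← heq] at h1
      have h2 : (Real.exp (-δ) * t) ^ i = Real.exp (-(i * δ)) * t ^ i := by
        rw [mul_pow, ← Real.exp_nat_mul]
        congr 2
        ring
      rw [h2] at h1
      rw [ht']
      have h3 : Real.exp (-(i * δ)) * (C * (ZZ i f / b) * t ^ i / c * hz f' w) =
          (Real.exp (-(i * δ)) * t ^ i * (C * (ZZ i f / b) * hz f' w)) / c := by ring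
      rw [h3, div_le_iff₀ hcp]
      linarith
    · have ha : 0 < Real.exp δ * t := by positivity
      have hsub : K ⊆ (Real.exp δ * t) • M := by
        refine geo_subset hK.cc (CC_smul hM _) (fun u => ?_)
        rw [hsup _ ha]
        have := (hKf u).2
        linarith
      have h1 := sc_mono hlim vd_mono (by omega) hPK (key _ ha w hw).2 (j := 0) (by omega)
        (Set.image_mono hsub)
      rw [(key _ ha w hw).1, ← heq] at h1
      have h2 : (Real.exp δ * t) ^ i = Real.exp (i * δ) * t ^ i := by
        rw [mul_pow, ← Real.exp_nat_mul]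
      rw [h2] at h1
      rw [ht']
      have h3 : Real.exp (i * δ) * (C * (ZZ i f / b) * t ^ i / c * hz f' w) =
          (Real.exp (i * δ) * t ^ i * (C * (ZZ i f / b) * hz f' w)) / c := by ring
      rw [h3, le_div_iff₀ hcp]
      linarith
  refine ⟨t', ht'0, ?_⟩
  intro w
  rcases eq_or_ne w 0 with hw0 | hw0
  · subst hw0
    have h1 : hz f' (0 : E) = 0 := by
      unfold hz
      simp
    rw [h1, supportFn_zero hK.cc.cpt hK.cc.ne]
    simp
  · have hn : 0 < ‖w‖ := norm_pos_iff.mpr hw0
    set u : E := ‖w‖⁻¹ • w with hu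
    have hu1 : ‖u‖ = 1 := by
      rw [hu, norm_smul, norm_inv, norm_norm, inv_mul_cancel₀ hn.ne']
    have hwu : w = ‖w‖ • u := by
      rw [hu, smul_smul, mul_inv_cancel₀ hn.ne', one_smul]
    have h1 : hz f' w = ‖w‖ * hz f' u := by
      rw [hwu]
      unfold hz
      rw [← integral_const_mul]
      refine integral_congr_ae (Eventually.of_forall (fun x => ?_))
      dsimp only
      rw [real_inner_smul_left, abs_mul, norm_smul, hu1, mul_one]
      rw [Real.norm_eq_abs]
      ring
    have h2 : supportFn K w = ‖w‖ * supportFn K u := by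
      conv_lhs => rw [hwu]
      exact supportFn_smul hK.cc.cpt hK.cc.ne hn.le u
    obtain ⟨h3, h4⟩ := hunit u hu1
    rw [h1, h2]
    constructor
    · calc Real.exp (-(i * δ)) * (t' * (‖w‖ * hz f' u))
          = ‖w‖ * (Real.exp (-(i * δ)) * (t' * hz f' u)) := by ring
        _ ≤ _ := mul_le_mul_of_nonneg_left h3 hn.le
    · calc ‖w‖ * supportFn K u ≤ ‖w‖ * (Real.exp (i * δ) * (t' * hz f' u)) :=
            mul_le_mul_of_nonneg_left h4 hn.le
        _ = _ := by ring


end Pool.Agent.REV.H55
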