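import Pool.Agent.Helper55_REV.GEO0
import Pool.Agent.Helper51_REV.ASM

set_option autoImplicit false

/-!
# Squad REV, row GEO0 without hypotheses
-/

namespace Pool.Agent.REV.H55

open Pool.Agent.Helper55_PB Pool.Agent.BPH Pool.Agent.REV Pool.Agent.REV.Asm

/-- one step for the body, `i = n - 1` -/
theorem geo0All : Geo0Stmt := geo0 gwa aSph aSpi aBkk aZfu aGwb (zom aSph)

end Pool.Agent.REV.H55
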