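import Pool.Agent.REV.Ifc

set_option autoImplicit false

/-!
# Squad REV, part F: the orbit of a zonal start density
-/

open MeasureTheory Module Set Filter
open scoped RealInnerProductSpace Pointwise Topology ENNReal

namespace Pool.Agent.REV.H55

open Pool.Agent.Helper55_PB Pool.Agent.Helper28_PB Pool.Agent.BPH Pool.Agent.REV

/-- the orbit of a zonal start density under the zonal step; the constants `C1`, `C2` are given
before the axis and the start density. -/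
theorem orb (geo : GEOStmt) {E : Type} [NormedAddCommGroup E] [InnerProductSpace ℝ E]
    [FiniteDimensional ℝ E] [MeasurableSpace E] [BorelSpace E] (i m : ℕ) (hi : 1 ≤ i)
    (hm : 1 ≤ m) (hn : m + i + 1 = finrank ℝ E) (C1 C2 : ℝ)
    (hG : ∀ e : E, ‖e‖ = 1 → ∀ f : ℝ → ℝ, Dens (zon e f) →
      Dens (zon e fun t => (ZZ i (zon e f))⁻¹ * TT (finrank ℝ E) i C1 C2 f t) ∧
      IsStep i (zon e f) (zon e fun t => (ZZ i (zon e f))⁻¹ * TT (finrank ℝ E) i C1 C2 f t))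
    (K : Set E) (c : ℝ) (hC : Centred m K c) (e : E) (he : ‖e‖ = 1) (f₀ : ℝ → ℝ)
    (hf₀ : Dens (zon e f₀)) (t₀ δ : ℝ) (ht₀ : 0 < t₀) (hδ : 0 ≤ δ)
    (hN : Nr K (zon e f₀) t₀ δ) :
    ∃ (F : ℕ → ℝ → ℝ) (t : ℕ → ℝ), F 0 = f₀ ∧ t 0 = t₀ ∧ (∀ s, Dens (zon e (F s))) ∧
      (∀ s, 0 < t s) ∧ (∀ s, Nr K (zon e (F s)) (t s) ((i : ℝ) ^ s * δ)) ∧
      ∀ s, F (s + 1) = fun x => (ZZ i (zon e (F s)))⁻¹ * TT (finrank ℝ E) i C1 C2 (F s) x := by
  classical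
  have hF : ∀ F : ℕ → ℝ → ℝ, F 0 = f₀ → (∀ s, F (s + 1) =
      fun x => (ZZ i (zon e (F s)))⁻¹ * TT (finrank ℝ E) i C1 C2 (F s) x) →
      ∀ s, Dens (zon e (F s)) ∧ ∃ t : ℝ, 0 < t ∧ (s = 0 → t = t₀) ∧
        Nr K (zon e (F s)) t ((i : ℝ) ^ s * δ) := by
    intro F h0 hs s
    induction s with
    | zero =>
      refine ⟨by rw [h0]; exact hf₀, t₀, ht₀, fun _ => rfl, ?_⟩
      rw [h0, pow_zero, one_mul]
      exact hN
    | succ s ih =>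
      obtain ⟨hD, t, ht, -, hNr⟩ := ih
      obtain ⟨hD', hS⟩ := hG e he (F s) hD
      have h0i : (0 : ℝ) ≤ (i : ℝ) ^ s * δ := mul_nonneg (pow_nonneg (Nat.cast_nonneg i) s) hδ
      obtain ⟨t', ht', hw⟩ := geo i m hi hm hn K c hC (zon e (F s)) _ hD hD' hS _ t h0i ht hNr
      rw [hs s]
      refine ⟨hD', t', ht', fun h => absurd h (Nat.succ_ne_zero s), ?_⟩
      intro w
      have e1 : (i : ℝ) ^ (s + 1) * δ = (i : ℝ) * ((i : ℝ) ^ s * δ) := by ring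
      rw [e1]
      exact hw w
  obtain ⟨F, h0, hs⟩ : ∃ F : ℕ → ℝ → ℝ, F 0 = f₀ ∧ ∀ s, F (s + 1) =
      fun x => (ZZ i (zon e (F s)))⁻¹ * TT (finrank ℝ E) i C1 C2 (F s) x :=
    ⟨fun s => Nat.rec f₀ (fun _ g x => (ZZ i (zon e g))⁻¹ * TT (finrank ℝ E) i C1 C2 g x) s,
      rfl, fun _ => rfl⟩
  have key := hF F h0 hs
  choose hD t ht ht0 hNr using key
  exact ⟨F, t, h0, ht0 0 rfl, hD, ht, hNr, hs⟩

end Pool.Agent.REV.H55
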